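import Pool.Agent.helper11.RPQ.SpecG

set_option autoImplicit false

open scoped MatrixGroups ContDiff Topology UpperHalfPlane ComplexConjugate
open UpperHalfPlane MeasureTheory Filter Set

namespace Pool.Agent.RPQ

open Pool.Agent.RS
open Pool.Agent.MS (BA BB st pf gk Dk amk)

theorem STP_ext {g h : SL(2, ℝ)} (h00 : g.1 0 0 = h.1 0 0) (h01 : g.1 0 1 = h.1 0 1) (h10 : g.1 1 0 = h.1 1 0)
    (h11 : g.1 1 1 = h.1 1 1) : g = h := by
  apply Subtype.ext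
  ext i j
  fin_cases i <;> fin_cases j
  · exact h00
  · exact h01
  · exact h10
  · exact h11

theorem STP_mul (g h : SL(2, ℝ)) (i j : Fin 2) : (g * h).1 i j = g.1 i 0 * h.1 0 j + g.1 i 1 * h.1 1 j := by
  rw [Matrix.SpecialLinearGroup.coe_mul, Matrix.mul_apply, Fin.sum_univ_two]

theorem STP_a (t : ℝ) : (aM t).1 0 0 = Real.exp (t / 2) ∧ (aM t).1 0 1 = 0 ∧ (aM t).1 1 0 = 0 ∧ (aM t).1 1 1 = Real.exp (-(t / 2)) :=
  ⟨rfl, rfl, rfl, rfl⟩

theorem STP_n (t : ℝ) : (nM t).1 0 0 = 1 ∧ (nM t).1 0 1 = t ∧ (nM t).1 1 0 = 0 ∧ (nM t).1 1 1 = 1 :=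
  ⟨rfl, rfl, rfl, rfl⟩

theorem STP_l (t : ℝ) : (lM t).1 0 0 = 1 ∧ (lM t).1 0 1 = 0 ∧ (lM t).1 1 0 = t ∧ (lM t).1 1 1 = 1 :=
  ⟨rfl, rfl, rfl, rfl⟩

theorem STP_k (θ : ℝ) : (kM θ).1 0 0 = Real.cos θ ∧ (kM θ).1 0 1 = Real.sin θ ∧ (kM θ).1 1 0 = -Real.sin θ ∧ (kM θ).1 1 1 = Real.cos θ :=
  ⟨rfl, rfl, rfl, rfl⟩

theorem STP_kpi (g : SL(2, ℝ)) : kM Real.pi * g = g * kM Real.pi := by
  obtain ⟨k0, k1, k2, k3⟩ := STP_k Real.pi
  rw [Real.cos_pi] at k0 k3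
  rw [Real.sin_pi] at k1 k2
  rw [neg_zero] at k2
  refine STP_ext ?_ ?_ ?_ ?_ <;> simp only [STP_mul, k0, k1, k2, k3] <;> ring

theorem STP_kk : kM Real.pi * kM Real.pi = kM 0 := by
  obtain ⟨k0, k1, k2, k3⟩ := STP_k Real.pi
  rw [Real.cos_pi] at k0 k3
  rw [Real.sin_pi] at k1 k2
  obtain ⟨j0, j1, j2, j3⟩ := STP_k 0
  rw [Real.cos_zero] at j0 j3
  rw [Real.sin_zero] at j1 j2
  refine STP_ext ?_ ?_ ?_ ?_ <;> rw [STP_mul] <;> simp only [k0, k1, k2, k3, j0, j1, j2, j3] <;> ring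

theorem STP_k0 : kM 0 = 1 := by
  obtain ⟨j0, j1, j2, j3⟩ := STP_k 0
  rw [Real.cos_zero] at j0 j3
  rw [Real.sin_zero] at j1 j2
  refine STP_ext ?_ ?_ ?_ ?_ <;> simp [j0, j1, j2, j3]

theorem STP_aa (s t : ℝ) : aM s * aM t = aM (s + t) := by
  obtain ⟨a0, a1, a2, a3⟩ := STP_a s
  obtain ⟨b0, b1, b2, b3⟩ := STP_a t
  obtain ⟨c0, c1, c2, c3⟩ := STP_a (s + t)
  have h1 : Real.exp (s / 2) * Real.exp (t / 2) = Real.exp ((s + t) / 2) := by rw [← Real.exp_add]; ring_nf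
  have h2 : Real.exp (-(s / 2)) * Real.exp (-(t / 2)) = Real.exp (-((s + t) / 2)) := by rw [← Real.exp_add]; ring_nf
  refine STP_ext ?_ ?_ ?_ ?_ <;> rw [STP_mul] <;> simp only [a0, a1, a2, a3, b0, b1, b2, b3, c0, c1, c2, c3]
  · rw [h1]; ring
  · ring
  · ring
  · rw [h2]; ring

theorem STP_nn (s t : ℝ) : nM s * nM t = nM (t + s) := by
  obtain ⟨a0, a1, a2, a3⟩ := STP_n s
  obtain ⟨b0, b1, b2, b3⟩ := STP_n t
  obtain ⟨c0, c1, c2, c3⟩ := STP_n (t + s)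
  refine STP_ext ?_ ?_ ?_ ?_ <;> rw [STP_mul] <;> simp only [a0, a1, a2, a3, b0, b1, b2, b3, c0, c1, c2, c3] <;> ring

theorem STP_al (τ v : ℝ) : aM τ * lM v = lM (Real.exp (-τ) * v) * aM τ := by
  obtain ⟨a0, a1, a2, a3⟩ := STP_a τ
  obtain ⟨b0, b1, b2, b3⟩ := STP_l v
  obtain ⟨c0, c1, c2, c3⟩ := STP_l (Real.exp (-τ) * v)
  have h1 : Real.exp (-τ) * Real.exp (τ / 2) = Real.exp (-(τ / 2)) := by rw [← Real.exp_add]; ring_nf
  refine STP_ext ?_ ?_ ?_ ?_ <;> rw [STP_mul, STP_mul] <;> simp only [a0, a1, a2, a3, b0, b1, b2, b3, c0, c1, c2, c3]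
  · ring
  · ring
  · rw [← h1]; ring
  · ring

theorem STP_na (y T : ℝ) : nM y * aM T = aM T * nM (Real.exp (-T) * y) := by
  obtain ⟨a0, a1, a2, a3⟩ := STP_a T
  obtain ⟨b0, b1, b2, b3⟩ := STP_n y
  obtain ⟨c0, c1, c2, c3⟩ := STP_n (Real.exp (-T) * y)
  have h1 : Real.exp (-T) * Real.exp (T / 2) = Real.exp (-(T / 2)) := by rw [← Real.exp_add]; ring_nf
  refine STP_ext ?_ ?_ ?_ ?_ <;> rw [STP_mul, STP_mul] <;> simp only [a0, a1, a2, a3, b0, b1, b2, b3, c0, c1, c2, c3]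
  · ring
  · rw [← h1]; ring
  · ring
  · ring

/-- the decomposition `± l a n` of an element with `a00 ≠ 0` -/
theorem STP_dec (A : SL(2, ℝ)) (h : A.1 0 0 ≠ 0) : ∃ θ : ℝ, (θ = 0 ∨ θ = Real.pi) ∧
    A = kM θ * (lM (A.1 1 0 / A.1 0 0) * aM (2 * Real.log |A.1 0 0|) * nM (A.1 0 1 / A.1 0 0)) := by
  have hdet : A.1 0 0 * A.1 1 1 - A.1 0 1 * A.1 1 0 = 1 := by
    have := A.2
    rw [Matrix.det_fin_two] at this
    exact this
  have he : Real.exp (2 * Real.log |A.1 0 0| / 2) = |A.1 0 0| := by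
    rw [mul_div_cancel_left₀ _ two_ne_zero, Real.exp_log (abs_pos.2 h)]
  have he' : Real.exp (-(2 * Real.log |A.1 0 0| / 2)) = |A.1 0 0|⁻¹ := by
    rw [Real.exp_neg, he]
  obtain ⟨a0, a1, a2, a3⟩ := STP_a (2 * Real.log |A.1 0 0|)
  obtain ⟨b0, b1, b2, b3⟩ := STP_l (A.1 1 0 / A.1 0 0)
  obtain ⟨c0, c1, c2, c3⟩ := STP_n (A.1 0 1 / A.1 0 0)
  rw [he] at a0
  rw [he'] at a3
  rcases lt_or_gt_of_ne h with h1 | h1
  · refine ⟨Real.pi, Or.inr rfl, ?_⟩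
    obtain ⟨k0, k1, k2, k3⟩ := STP_k Real.pi
    rw [Real.cos_pi] at k0 k3
    rw [Real.sin_pi] at k1 k2
    have a0' : (aM (2 * Real.log |A.1 0 0|)).1 0 0 = -A.1 0 0 := a0.trans (abs_of_neg h1)
    have a3' : (aM (2 * Real.log |A.1 0 0|)).1 1 1 = -(A.1 0 0)⁻¹ := a3.trans (by rw [abs_of_neg h1, inv_neg])
    clear a0 a3
    refine STP_ext ?_ ?_ ?_ ?_ <;> simp only [STP_mul, a0', a1, a2, a3', b0, b1, b2, b3, c0, c1, c2, c3, k0, k1, k2, k3]
    · ring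
    · field_simp
      ring
    · field_simp
      ring
    · field_simp
      linear_combination hdet
  · refine ⟨0, Or.inl rfl, ?_⟩
    obtain ⟨k0, k1, k2, k3⟩ := STP_k 0
    rw [Real.cos_zero] at k0 k3
    rw [Real.sin_zero] at k1 k2
    have a0' : (aM (2 * Real.log |A.1 0 0|)).1 0 0 = A.1 0 0 := a0.trans (abs_of_pos h1)
    have a3' : (aM (2 * Real.log |A.1 0 0|)).1 1 1 = (A.1 0 0)⁻¹ := a3.trans (by rw [abs_of_pos h1])
    clear a0 a3
    refine STP_ext ?_ ?_ ?_ ?_ <;> simp only [STP_mul, a0', a1, a2, a3', b0, b1, b2, b3, c0, c1, c2, c3, k0, k1, k2, k3]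
    · ring
    · field_simp
      ring
    · field_simp
      ring
    · field_simp
      linear_combination hdet

theorem STP_log {a δ : ℝ} (h : abs (|a| - 1) ≤ δ) (hδ : δ ≤ 1 / 2) : abs (2 * Real.log |a|) ≤ 4 * δ := by
  obtain ⟨x, hx⟩ : ∃ x : ℝ, x = |a| := ⟨_, rfl⟩
  rw [← hx] at h ⊢
  rw [abs_le] at h
  have hx0 : 0 < x := by linarith
  have h1 : Real.log x ≤ x - 1 := Real.log_le_sub_one_of_pos hx0
  have h2 : 1 - x⁻¹ ≤ Real.log x := Real.one_sub_inv_le_log_of_pos hx0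
  have h3 : -(2 * δ) ≤ 1 - x⁻¹ := by
    have h4 : x⁻¹ * x = 1 := inv_mul_cancel₀ hx0.ne'
    have h5 : 0 < x⁻¹ := inv_pos.2 hx0
    have h6 : x⁻¹ ≤ 2 := by
      by_contra hc
      push Not at hc
      nlinarith
    have h7 : 1 - x⁻¹ = x⁻¹ * (x - 1) := by rw [mul_sub, h4, mul_one]
    rw [h7]
    nlinarith
  rw [abs_le]
  constructor <;> linarith

theorem STP_proof : STP_stmt := by
  intro C1 C2 η ε hC1 hC2 hη hη' hε hε'
  have hC : 1 ≤ C1 * C2 := one_le_mul_of_one_le_of_one_le hC1 hC2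
  have hC1' : C1 ≤ C1 * C2 := by nlinarith
  have hC2' : C2 ≤ C1 * C2 := by nlinarith
  refine ⟨21 * (C1 * C2), (10 * (C1 * C2)) ^ (1 / η), by linarith,
    Real.one_le_rpow (by linarith) (by positivity), ?_⟩
  intro R hR b hb
  have hR1 : 1 ≤ R := le_trans (Real.one_le_rpow (by linarith) (by positivity)) hR
  have hR0 : 0 < R := by linarith
  have hRη : 10 * (C1 * C2) ≤ R ^ η := by
    calc 10 * (C1 * C2) = ((10 * (C1 * C2)) ^ (1 / η)) ^ η := by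
          rw [← Real.rpow_mul (by linarith), one_div, inv_mul_cancel₀ hη.ne', Real.rpow_one]
      _ ≤ R ^ η := Real.rpow_le_rpow (by positivity) hR hη.le
  have hRη' : C1 * C2 * R ^ (-η) ≤ 1 / 10 := by
    rw [Real.rpow_neg hR0.le, ← div_eq_mul_inv, div_le_iff₀ (by positivity)]
    linarith
  have hd0 : 0 < R ^ (-η) := Real.rpow_pos_of_pos hR0 _
  -- the general statement
  have key : ∀ (t : ℝ) (q : SL(2, ℝ)), 0 ≤ t → q ∈ SN C2 η ε R t →
      aM (tau R) * b * q ∈ SN (21 * (C1 * C2)) η ε R (tau R + t) := by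
    intro t q ht hq
    obtain ⟨u, s, x, θ, hθ, hu, hs, hx, rfl⟩ := hq
    obtain ⟨hb3, hb10, hb01, hbd⟩ := hb
    have hdet : b.1 0 0 * b.1 1 1 - b.1 0 1 * b.1 1 0 = 1 := by
      have := b.2
      rw [Matrix.det_fin_two] at this
      exact this
    -- powers of `R`
    have p1 : R ^ (-(1 / 4) : ℝ) * R ^ (-(5 / 8) + ε) ≤ R ^ (-η) := by
      rw [← Real.rpow_add hR0]
      exact Real.rpow_le_rpow_of_exponent_le hR1 (by linarith)
    have p2 : R ^ (-(1 / 4) : ℝ) * R ^ (-(3 / 4) + ε) ≤ R ^ (-η) := by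
      rw [← Real.rpow_add hR0]
      exact Real.rpow_le_rpow_of_exponent_le hR1 (by linarith)
    have p3 : R ^ (-(3 / 4) + ε) ≤ R ^ (-(5 / 8) + ε) := Real.rpow_le_rpow_of_exponent_le hR1 (by linarith)
    have p4 : Real.exp (-(tau R)) * R ^ (-(5 / 8) + ε) = R ^ (-(3 / 4) + ε) := by
      unfold tau
      have e : Real.exp (-(Real.log R / 8)) = R ^ (-(1 / 8) : ℝ) := by
        rw [Real.rpow_def_of_pos hR0]
        ring_nf
      rw [e, ← Real.rpow_add hR0]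
      ring_nf
    have q0 : 0 < R ^ (-(1 / 4) : ℝ) := Real.rpow_pos_of_pos hR0 _
    have q1 : 0 < R ^ (-(5 / 8) + ε) := Real.rpow_pos_of_pos hR0 _
    have q2 : 0 < R ^ (-(3 / 4) + ε) := Real.rpow_pos_of_pos hR0 _
    -- the entry `b00`
    have hb00 : |b.1 0 0 ^ 2 - 1| ≤ 4 * C1 * R ^ (-η) := by
      have e : b.1 0 0 ^ 2 - 1 = b.1 0 1 * b.1 1 0 + b.1 0 0 * (b.1 0 0 - b.1 1 1) := by linarith [hdet, sq (b.1 0 0)]
      rw [e]
      have h1 : |b.1 0 1 * b.1 1 0| ≤ C1 * R ^ (-η) := by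
        rw [abs_mul]
        calc |b.1 0 1| * |b.1 1 0| ≤ (C1 * R ^ (-(1 / 4) : ℝ)) * R ^ (-(5 / 8) + ε) :=
              mul_le_mul hb01 hb10 (abs_nonneg _) (by positivity)
          _ = C1 * (R ^ (-(1 / 4) : ℝ) * R ^ (-(5 / 8) + ε)) := by ring
          _ ≤ C1 * R ^ (-η) := mul_le_mul_of_nonneg_left p1 (by linarith)
      have h2 : |b.1 0 0 * (b.1 0 0 - b.1 1 1)| ≤ 3 * (C1 * R ^ (-η)) := by
        rw [abs_mul]
        exact mul_le_mul (hb3 0 0) hbd (abs_nonneg _) (by norm_num)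
      calc _ ≤ |b.1 0 1 * b.1 1 0| + |b.1 0 0 * (b.1 0 0 - b.1 1 1)| := abs_add_le _ _
        _ ≤ _ := by linarith
    have hb00' : abs (|b.1 0 0| - 1) ≤ 4 * C1 * R ^ (-η) := by
      have h1 : b.1 0 0 ^ 2 - 1 = (|b.1 0 0| - 1) * (|b.1 0 0| + 1) := by
        have := sq_abs (b.1 0 0)
        linarith [sq (|b.1 0 0|)]
      rw [h1, abs_mul] at hb00
      have h2 : 1 ≤ abs (|b.1 0 0| + 1) := by
        rw [abs_of_nonneg (by positivity)]
        linarith [abs_nonneg (b.1 0 0)]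
      calc abs (|b.1 0 0| - 1) ≤ abs (|b.1 0 0| - 1) * abs (|b.1 0 0| + 1) := le_mul_of_one_le_right (abs_nonneg _) h2
        _ ≤ _ := hb00
    -- the product `b * lM u`
    obtain ⟨A, hA⟩ : ∃ A : SL(2, ℝ), A = b * lM u := ⟨_, rfl⟩
    have A00 : A.1 0 0 = b.1 0 0 + b.1 0 1 * u := by
      rw [hA, STP_mul, (STP_l u).1, (STP_l u).2.2.1, mul_one]
    have A01 : A.1 0 1 = b.1 0 1 := by
      rw [hA, STP_mul, (STP_l u).2.1, (STP_l u).2.2.2]
      ring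
    have A10 : A.1 1 0 = b.1 1 0 + b.1 1 1 * u := by
      rw [hA, STP_mul, (STP_l u).1, (STP_l u).2.2.1, mul_one]
    have hbu : |b.1 0 1 * u| ≤ C1 * C2 * R ^ (-η) := by
      rw [abs_mul]
      calc |b.1 0 1| * |u| ≤ (C1 * R ^ (-(1 / 4) : ℝ)) * (C2 * R ^ (-(3 / 4) + ε)) :=
            mul_le_mul hb01 hu (abs_nonneg _) (by positivity)
        _ = C1 * C2 * (R ^ (-(1 / 4) : ℝ) * R ^ (-(3 / 4) + ε)) := by ring
        _ ≤ C1 * C2 * R ^ (-η) := mul_le_mul_of_nonneg_left p2 (by linarith)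
    have hA00 : abs (|A.1 0 0| - 1) ≤ 5 * (C1 * C2 * R ^ (-η)) := by
      have h1 : abs (|A.1 0 0| - |b.1 0 0|) ≤ |b.1 0 1 * u| := by
        refine (abs_abs_sub_abs_le _ _).trans (le_of_eq ?_)
        rw [A00]
        congr 1
        ring
      have h2 : (|A.1 0 0|) - 1 = (|A.1 0 0| - |b.1 0 0|) + (|b.1 0 0| - 1) := by ring
      rw [h2]
      refine (abs_add_le _ _).trans ?_
      have h3 : 4 * C1 * R ^ (-η) ≤ 4 * (C1 * C2 * R ^ (-η)) := by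
        have := mul_le_mul_of_nonneg_right hC1' hd0.le
        linarith
      linarith
    have hA1 : 1 / 2 ≤ |A.1 0 0| := by
      rw [abs_le] at hA00
      linarith
    have hA0 : A.1 0 0 ≠ 0 := by
      intro h
      rw [h, abs_zero] at hA1
      linarith
    obtain ⟨θ₀, hθ₀, hdec⟩ := STP_dec A hA0
    have hv : |A.1 1 0 / A.1 0 0| ≤ 8 * C2 * R ^ (-(5 / 8) + ε) := by
      rw [abs_div, div_le_iff₀ (by linarith)]
      have h1 : |A.1 1 0| ≤ R ^ (-(5 / 8) + ε) + 3 * (C2 * R ^ (-(3 / 4) + ε)) := by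
        rw [A10]
        refine (abs_add_le _ _).trans (add_le_add hb10 ?_)
        rw [abs_mul]
        exact mul_le_mul (hb3 1 1) hu (abs_nonneg _) (by norm_num)
      have h2 : C2 * R ^ (-(3 / 4) + ε) ≤ C2 * R ^ (-(5 / 8) + ε) := mul_le_mul_of_nonneg_left p3 (by linarith)
      have h3 : R ^ (-(5 / 8) + ε) ≤ C2 * R ^ (-(5 / 8) + ε) := le_mul_of_one_le_left q1.le hC2
      have h4 : 8 * C2 * R ^ (-(5 / 8) + ε) * (1 / 2) ≤ 8 * C2 * R ^ (-(5 / 8) + ε) * |A.1 0 0| :=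
        mul_le_mul_of_nonneg_left hA1 (by positivity)
      linarith
    have hy : |A.1 0 1 / A.1 0 0| ≤ 2 * C1 * R ^ (-(1 / 4) : ℝ) := by
      rw [abs_div, div_le_iff₀ (by linarith), A01]
      have h4 : 2 * C1 * R ^ (-(1 / 4) : ℝ) * (1 / 2) ≤ 2 * C1 * R ^ (-(1 / 4) : ℝ) * |A.1 0 0| :=
        mul_le_mul_of_nonneg_left hA1 (by positivity)
      linarith
    have hσ := STP_log hA00 (by linarith)
    -- the new parameters
    obtain ⟨v, hvd⟩ : ∃ v : ℝ, v = A.1 1 0 / A.1 0 0 := ⟨_, rfl⟩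
    obtain ⟨σ, hσd⟩ : ∃ σ : ℝ, σ = 2 * Real.log |A.1 0 0| := ⟨_, rfl⟩
    obtain ⟨y, hyd⟩ : ∃ y : ℝ, y = A.1 0 1 / A.1 0 0 := ⟨_, rfl⟩
    rw [← hvd, ← hσd, ← hyd] at hdec
    rw [← hvd] at hv
    rw [← hσd] at hσ
    rw [← hyd] at hy
    -- the sign
    obtain ⟨θ', hθ', hkk⟩ : ∃ θ' : ℝ, (θ' = 0 ∨ θ' = Real.pi) ∧ ∀ g : SL(2, ℝ), kM θ₀ * (g * kM θ) = g * kM θ' := by
      rcases hθ₀ with rfl | rfl
      · exact ⟨θ, hθ, fun g => by rw [STP_k0, one_mul]⟩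
      · rcases hθ with rfl | rfl
        · exact ⟨Real.pi, Or.inr rfl, fun g => by rw [STP_k0, mul_one]; exact STP_kpi g⟩
        · refine ⟨0, Or.inl rfl, fun g => ?_⟩
          rw [STP_kpi, mul_assoc, STP_kk]
    have hs1 : |s| ≤ 1 := by
      refine hs.trans ?_
      have := mul_le_mul_of_nonneg_right hC2' hd0.le
      linarith
    refine ⟨Real.exp (-(tau R)) * v, s + σ, x + Real.exp (-(t + s)) * y, θ', hθ', ?_, ?_, ?_, ?_⟩
    · rw [abs_mul, abs_of_pos (Real.exp_pos _)]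
      calc Real.exp (-(tau R)) * |v| ≤ Real.exp (-(tau R)) * (8 * C2 * R ^ (-(5 / 8) + ε)) :=
            mul_le_mul_of_nonneg_left hv (Real.exp_pos _).le
        _ = 8 * C2 * (Real.exp (-(tau R)) * R ^ (-(5 / 8) + ε)) := by ring
        _ = 8 * C2 * R ^ (-(3 / 4) + ε) := by rw [p4]
        _ ≤ 21 * (C1 * C2) * R ^ (-(3 / 4) + ε) := mul_le_mul_of_nonneg_right (by linarith) q2.le
    · refine (abs_add_le _ _).trans ?_
      have h1 : C2 * R ^ (-η) ≤ C1 * C2 * R ^ (-η) := mul_le_mul_of_nonneg_right hC2' hd0.le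
      calc |s| + |σ| ≤ C2 * R ^ (-η) + 4 * (5 * (C1 * C2 * R ^ (-η))) := add_le_add hs hσ
        _ ≤ 21 * (C1 * C2) * R ^ (-η) := by linarith
    · refine (abs_add_le _ _).trans ?_
      rw [abs_mul, abs_of_pos (Real.exp_pos _)]
      have h1 : Real.exp (-(t + s)) ≤ 3 := by
        have h2 : Real.exp (-(t + s)) ≤ Real.exp 1 := Real.exp_le_exp.2 (by
          have := (abs_le.1 hs1).1
          linarith)
        exact h2.trans (by linarith [Real.exp_one_lt_d9])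
      have h2 : Real.exp (-(t + s)) * |y| ≤ 3 * (2 * C1 * R ^ (-(1 / 4) : ℝ)) :=
        mul_le_mul h1 hy (abs_nonneg _) (by norm_num)
      have h3 : C2 * R ^ (-(1 / 4) : ℝ) ≤ C1 * C2 * R ^ (-(1 / 4) : ℝ) := mul_le_mul_of_nonneg_right hC2' q0.le
      have h4 : C1 * R ^ (-(1 / 4) : ℝ) ≤ C1 * C2 * R ^ (-(1 / 4) : ℝ) := mul_le_mul_of_nonneg_right hC1' q0.le
      calc |x| + Real.exp (-(t + s)) * |y| ≤ C2 * R ^ (-(1 / 4) : ℝ) + 3 * (2 * C1 * R ^ (-(1 / 4) : ℝ)) := add_le_add hx h2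
        _ ≤ 7 * (C1 * C2 * R ^ (-(1 / 4) : ℝ)) := by linarith
        _ ≤ 21 * (C1 * C2) * R ^ (-(1 / 4) : ℝ) := by
          have : 0 ≤ C1 * C2 * R ^ (-(1 / 4) : ℝ) := by positivity
          linarith
    · calc aM (tau R) * b * (lM u * aM (t + s) * nM x * kM θ)
          = aM (tau R) * (A * (aM (t + s) * nM x * kM θ)) := by
            rw [hA]
            simp only [mul_assoc]
        _ = aM (tau R) * (kM θ₀ * ((lM v * aM σ * nM y * (aM (t + s) * nM x)) * kM θ)) := by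
            rw [hdec]
            simp only [mul_assoc]
        _ = aM (tau R) * ((lM v * aM σ * nM y * (aM (t + s) * nM x)) * kM θ') := by rw [hkk]
        _ = aM (tau R) * lM v * aM σ * (nM y * aM (t + s)) * nM x * kM θ' := by simp only [mul_assoc]
        _ = lM (Real.exp (-(tau R)) * v) * (aM (tau R) * aM σ * aM (t + s)) * (nM (Real.exp (-(t + s)) * y) * nM x) * kM θ' := by
            rw [STP_al, STP_na]
            simp only [mul_assoc]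
        _ = lM (Real.exp (-(tau R)) * v) * aM (tau R + t + (s + σ)) * nM (x + Real.exp (-(t + s)) * y) * kM θ' := by
            rw [STP_aa, STP_aa, STP_nn]
            have e : tau R + σ + (t + s) = tau R + t + (s + σ) := by ring
            rw [e]
  refine ⟨?_, key⟩
  have h1 := key 0 1 le_rfl ⟨0, 0, 0, 0, Or.inl rfl, by rw [abs_zero]; positivity, by rw [abs_zero]; positivity, by rw [abs_zero]; positivity, by
    have e1 : lM 0 = 1 := by
      obtain ⟨b0, b1, b2, b3⟩ := STP_l 0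
      refine STP_ext ?_ ?_ ?_ ?_ <;> simp [b0, b1, b2, b3]
    have e2 : aM (0 + 0) = 1 := by
      rw [add_zero]
      obtain ⟨b0, b1, b2, b3⟩ := STP_a 0
      refine STP_ext ?_ ?_ ?_ ?_ <;> simp [b0, b1, b2, b3]
    have e3 : nM 0 = 1 := by
      obtain ⟨b0, b1, b2, b3⟩ := STP_n 0
      refine STP_ext ?_ ?_ ?_ ?_ <;> simp [b0, b1, b2, b3]
    rw [e1, e2, e3, STP_k0]
    simp⟩
  rw [mul_one, add_zero] at h1
  exact h1

end Pool.Agent.RPQ
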