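import Pool.Agent.helper11.RPQ.SpecG

set_option autoImplicit false

open scoped MatrixGroups ContDiff Topology UpperHalfPlane ComplexConjugate
open UpperHalfPlane MeasureTheory Filter Set

namespace Pool.Agent.RPQ

open Pool.Agent.RS
open Pool.Agent.MS (BA BB st pf gk Dk amk)

/-- the distance of `h • I` and `I` -/
theorem TPT_cosh (h : SL(2, ℝ)) : Real.cosh (dist (h • I) I) =
    (h.1 0 0 ^ 2 + h.1 0 1 ^ 2 + h.1 1 0 ^ 2 + h.1 1 1 ^ 2) / 2 := by
  rw [UpperHalfPlane.cosh_dist]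
  have hdet : h.1 0 0 * h.1 1 1 - h.1 0 1 * h.1 1 0 = 1 := by
    have := h.2
    rwa [Matrix.det_fin_two] at this
  set a := h.1 0 0
  set b := h.1 0 1
  set c := h.1 1 0
  set d := h.1 1 1
  have hN : 0 < c ^ 2 + d ^ 2 := by
    rcases eq_or_ne c 0 with hc | hc
    · have hd : d ≠ 0 := by rintro hd; rw [hc, hd] at hdet; simp at hdet
      positivity
    · positivity
  have hz : ((h • I : ℍ) : ℂ) = ((a : ℂ) * Complex.I + b) / ((c : ℂ) * Complex.I + d) := by
    rw [UpperHalfPlane.coe_specialLinearGroup_apply]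
    simp [a, b, c, d]
  have hne : (c : ℂ) * Complex.I + d ≠ 0 := by
    intro h0
    have h1 : Complex.normSq ((c : ℂ) * Complex.I + d) = c ^ 2 + d ^ 2 := by
      rw [Complex.normSq_apply]; simp; ring
    rw [h0] at h1
    simp at h1
    linarith
  have him : (h • I : ℍ).im = 1 / (c ^ 2 + d ^ 2) := by
    have h1 : (h • I : ℍ).im = (((a : ℂ) * Complex.I + b) / ((c : ℂ) * Complex.I + d)).im := by
      rw [← hz]; rfl
    rw [h1, Complex.div_im]
    have h2 : Complex.normSq ((c : ℂ) * Complex.I + d) = c ^ 2 + d ^ 2 := by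
      rw [Complex.normSq_apply]; simp; ring
    rw [h2]
    simp
    field_simp
    linarith
  have hdist : dist ((h • I : ℍ) : ℂ) ((I : ℍ) : ℂ) ^ 2 =
      ((b + c) ^ 2 + (a - d) ^ 2) / (c ^ 2 + d ^ 2) := by
    rw [Complex.dist_eq, ← Complex.normSq_eq_norm_sq, hz]
    have h3 : ((a : ℂ) * Complex.I + b) / ((c : ℂ) * Complex.I + d) - ((I : ℍ) : ℂ) =
        (((b + c : ℝ) : ℂ) + ((a - d : ℝ) : ℂ) * Complex.I) / ((c : ℂ) * Complex.I + d) := by
      rw [UpperHalfPlane.coe_I, eq_div_iff hne, sub_mul, div_mul_cancel₀ _ hne]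
      push_cast
      linear_combination (-(c : ℂ)) * Complex.I_sq
    rw [h3, map_div₀]
    congr 1
    · rw [Complex.normSq_apply]; simp; ring
    · rw [Complex.normSq_apply]; simp; ring
  rw [hdist, him, UpperHalfPlane.I_im]
  field_simp
  nlinarith

/-- the two entries bounds from `dist (h • I) I ≤ δ` -/
theorem TPT_ent (h : SL(2, ℝ)) (δ : ℝ) (hδ : 0 < δ) (hδ' : δ ≤ 1) (hd : dist (h • I : ℍ) I ≤ δ) :
    |h.1 0 0 - h.1 1 1| ≤ 2 * δ ∧ |h.1 0 1 + h.1 1 0| ≤ 2 * δ ∧ (∀ i j, |h.1 i j| ≤ 2) := by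
  have hdet : h.1 0 0 * h.1 1 1 - h.1 0 1 * h.1 1 0 = 1 := by
    have := h.2
    rwa [Matrix.det_fin_two] at this
  have h1 : Real.cosh (dist (h • I : ℍ) I) ≤ Real.cosh δ := by
    rw [Real.cosh_le_cosh, abs_of_nonneg dist_nonneg, abs_of_pos hδ]
    exact hd
  have h2 : Real.cosh δ ≤ 1 + δ ^ 2 := by
    have h3 : Real.cosh δ ≤ Real.exp (δ ^ 2 / 2) := Real.cosh_le_exp_half_sq δ
    have h4 : Real.exp (δ ^ 2 / 2) ≤ 1 + δ ^ 2 := by
      have h5 : |Real.exp (δ ^ 2 / 2) - 1 - δ ^ 2 / 2| ≤ (δ ^ 2 / 2) ^ 2 :=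
        Real.abs_exp_sub_one_sub_id_le (by rw [abs_of_nonneg (by positivity)]; nlinarith)
      have h6 := (abs_le.1 h5).2
      have h7 : (δ ^ 2 / 2) ^ 2 ≤ δ ^ 2 / 2 := by
        have h8 : δ ^ 2 ≤ 1 := by nlinarith
        nlinarith [sq_nonneg δ]
      linarith
    exact h3.trans h4
  rw [TPT_cosh] at h1
  have h3 : (h.1 0 0 - h.1 1 1) ^ 2 + (h.1 0 1 + h.1 1 0) ^ 2 ≤ 2 * δ ^ 2 := by nlinarith
  have h4 : h.1 0 0 ^ 2 + h.1 0 1 ^ 2 + h.1 1 0 ^ 2 + h.1 1 1 ^ 2 ≤ 4 := by nlinarith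
  refine ⟨?_, ?_, ?_⟩
  · refine abs_le_of_sq_le_sq ?_ (by linarith) |> fun q => q
    nlinarith [sq_nonneg (h.1 0 1 + h.1 1 0), sq_nonneg δ]
  · refine abs_le_of_sq_le_sq ?_ (by linarith) |> fun q => q
    nlinarith [sq_nonneg (h.1 0 0 - h.1 1 1), sq_nonneg δ]
  · intro i j
    refine abs_le_of_sq_le_sq ?_ (by norm_num) |> fun q => q
    fin_cases i <;> fin_cases j
    · show h.1 0 0 ^ 2 ≤ 2 ^ 2
      nlinarith [sq_nonneg (h.1 0 1), sq_nonneg (h.1 1 0), sq_nonneg (h.1 1 1)]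
    · show h.1 0 1 ^ 2 ≤ 2 ^ 2
      nlinarith [sq_nonneg (h.1 0 0), sq_nonneg (h.1 1 0), sq_nonneg (h.1 1 1)]
    · show h.1 1 0 ^ 2 ≤ 2 ^ 2
      nlinarith [sq_nonneg (h.1 0 1), sq_nonneg (h.1 0 0), sq_nonneg (h.1 1 1)]
    · show h.1 1 1 ^ 2 ≤ 2 ^ 2
      nlinarith [sq_nonneg (h.1 0 1), sq_nonneg (h.1 1 0), sq_nonneg (h.1 0 0)]

theorem TPT_aux (a d x δ : ℝ) (hx : |x| ≤ 1) (h1 : |a - d| ≤ 2 * δ)
    (h2 : |a * Real.exp (-x) - d * Real.exp x| ≤ 2 * δ) : |a| * (2 * |x|) ≤ 8 * δ := by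
  have hδ : 0 ≤ δ := by linarith [abs_nonneg (a - d)]
  have h3 : Real.exp x ≤ 3 := by
    have h4 : Real.exp x ≤ Real.exp 1 := Real.exp_le_exp.2 ((le_abs_self x).trans hx)
    exact h4.trans (by linarith [Real.exp_one_lt_d9])
  have h5 : a * (2 * Real.sinh x) = (a - d) * Real.exp x - (a * Real.exp (-x) - d * Real.exp x) := by
    rw [Real.sinh_eq]
    ring
  have h6 : |a| * (2 * Real.sinh |x|) ≤ 8 * δ := by
    have h7 : |a| * (2 * Real.sinh |x|) = |a * (2 * Real.sinh x)| := by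
      rw [abs_mul, abs_mul, abs_two, Real.abs_sinh]
    rw [h7, h5]
    refine (abs_sub _ _).trans ?_
    rw [abs_mul, abs_of_pos (Real.exp_pos x)]
    have h8 : |a - d| * Real.exp x ≤ 2 * δ * 3 := mul_le_mul h1 h3 (Real.exp_pos x).le (by linarith)
    linarith
  have h9 : |x| ≤ Real.sinh |x| := Real.self_le_sinh_iff.2 (abs_nonneg x)
  have h10 := mul_le_mul_of_nonneg_left h9 (abs_nonneg a)
  linarith

theorem TPT_a (t : ℝ) : (aM t).1 0 0 = Real.exp (t / 2) ∧ (aM t).1 0 1 = 0 ∧ (aM t).1 1 0 = 0 ∧ (aM t).1 1 1 = Real.exp (-(t / 2)) :=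
  ⟨rfl, rfl, rfl, rfl⟩

theorem TPT_k (θ : ℝ) : (kM θ).1 0 0 = Real.cos θ ∧ (kM θ).1 0 1 = Real.sin θ ∧ (kM θ).1 1 0 = -Real.sin θ ∧ (kM θ).1 1 1 = Real.cos θ :=
  ⟨rfl, rfl, rfl, rfl⟩

theorem TPT_mul (g h : SL(2, ℝ)) (i j : Fin 2) : (g * h).1 i j = g.1 i 0 * h.1 0 j + g.1 i 1 * h.1 1 j := by
  rw [Matrix.SpecialLinearGroup.coe_mul, Matrix.mul_apply, Fin.sum_univ_two]

/-- from `|x² - 1| ≤ e` and the sign of `x` -/
theorem TPT_sq (x e : ℝ) (hx : 0 < x) (h : |x ^ 2 - 1| ≤ e) : |x - 1| ≤ e := by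
  have h1 : x ^ 2 - 1 = (x - 1) * (x + 1) := by ring
  rw [h1, abs_mul] at h
  refine le_trans ?_ h
  refine le_mul_of_one_le_right (abs_nonneg _) ?_
  rw [abs_of_pos (by linarith)]
  linarith

/-- the pure part: `p q - r s = 1`, `r` small, `p ≈ q`, `r ≈ -s`: then `(p, r, s, q)` is near `± 1` -/
theorem TPT_near (p q r s δ e : ℝ) (hdet : p * q - r * s = 1) (hp : |p| ≤ 2) (hδ : 0 < δ) (hδe : δ ≤ e) (he : 100 * e ≤ 1)
    (hpq : |p - q| ≤ 2 * δ) (hrs : |r + s| ≤ 2 * δ) (hr : |r| ≤ 8 * e) :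
    (|p - 1| < 100 * e ∧ |q - 1| < 100 * e ∨ |(-p) - 1| < 100 * e ∧ |(-q) - 1| < 100 * e) ∧ |r| < 100 * e ∧ |s| < 100 * e := by
  have he0 : 0 < e := by linarith
  have hs : |s| ≤ 10 * e := by
    have h1 : s = (r + s) - r := by ring
    rw [h1]
    refine (abs_sub _ _).trans ?_
    linarith
  have h2 : |p ^ 2 - 1| ≤ 5 * e := by
    have h3 : p ^ 2 - 1 = p * (p - q) + r * s := by linear_combination hdet
    rw [h3]
    refine (abs_add_le _ _).trans ?_
    rw [abs_mul, abs_mul]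
    have h4 : |p| * |p - q| ≤ 2 * (2 * δ) := mul_le_mul hp hpq (abs_nonneg _) (by norm_num)
    have h5 : |r| * |s| ≤ (8 * e) * (10 * e) := mul_le_mul hr hs (abs_nonneg _) (by linarith)
    nlinarith
  refine ⟨?_, by linarith, by linarith⟩
  have hp0 : p ≠ 0 := by
    intro h0
    rw [h0] at h2
    norm_num at h2
    linarith
  rcases lt_or_gt_of_ne hp0 with h6 | h6
  · right
    have h7 : |(-p) - 1| ≤ 5 * e := TPT_sq (-p) (5 * e) (by linarith) (by rw [neg_sq]; exact h2)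
    refine ⟨by linarith, ?_⟩
    have h8 : (-q) - 1 = (p - q) + ((-p) - 1) := by ring
    rw [h8]
    refine lt_of_le_of_lt (abs_add_le _ _) ?_
    linarith
  · left
    have h7 : |p - 1| ≤ 5 * e := TPT_sq p (5 * e) h6 h2
    refine ⟨by linarith, ?_⟩
    have h8 : q - 1 = (p - 1) - (p - q) := by ring
    rw [h8]
    refine lt_of_le_of_lt (abs_sub _ _) ?_
    linarith

theorem TPT_nr (g : SL(2, ℝ)) (e : ℝ) (h00 : |g.1 0 0 - 1| < e) (h01 : |g.1 0 1| < e) (h10 : |g.1 1 0| < e) (h11 : |g.1 1 1 - 1| < e) :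
    EN.nr e g := by
  intro i j
  fin_cases i <;> fin_cases j
  · simpa using h00
  · simpa using h01
  · simpa using h10
  · simpa using h11

theorem TPT_proof : TPT_stmt := by
  refine ⟨100, by norm_num, ?_⟩
  intro h D D' δ hδ hD hD1 hD'1 hCD hd1 hd2
  have hδ1 : δ ≤ 1 := by linarith
  obtain ⟨e, he⟩ : ∃ e : ℝ, e = δ / D := ⟨_, rfl⟩
  have heD : e * D = δ := by rw [he, div_mul_cancel₀ _ hD.ne']
  have he0 : 0 < e := by rw [he]; positivity
  have hδe : δ ≤ e := by nlinarith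
  have h100 : 100 * e ≤ 1 := by
    by_contra hc
    push Not at hc
    nlinarith
  have hdet : h.1 0 0 * h.1 1 1 - h.1 0 1 * h.1 1 0 = 1 := by
    have := h.2
    rwa [Matrix.det_fin_two] at this
  obtain ⟨hA, hB, hE⟩ := TPT_ent h δ hδ hδ1 hd1
  have hd3 : dist ((aM (-D) * (h * aM D')) • I : ℍ) I ≤ δ := by
    have e1 : aM (-D) * aM D = 1 := by
      obtain ⟨a0, a1, a2, a3⟩ := TPT_a (-D)
      obtain ⟨b0, b1, b2, b3⟩ := TPT_a D
      apply Subtype.ext
      ext i j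
      fin_cases i <;> fin_cases j
      · show (aM (-D) * aM D).1 0 0 = 1
        rw [TPT_mul, a0, a1, b0, b2, mul_zero, add_zero, ← Real.exp_add]
        ring_nf
        exact Real.exp_zero
      · show (aM (-D) * aM D).1 0 1 = 0
        rw [TPT_mul, a1, b1]
        ring
      · show (aM (-D) * aM D).1 1 0 = 0
        rw [TPT_mul, a2, b2]
        ring
      · show (aM (-D) * aM D).1 1 1 = 1
        rw [TPT_mul, a2, a3, b3, zero_mul, zero_add, ← Real.exp_add]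
        ring_nf
        exact Real.exp_zero
    have e2 : dist ((aM (-D) * (h * aM D')) • I : ℍ) I = dist ((h * aM D') • I : ℍ) (aM D • I) := by
      rw [← dist_smul (aM (-D)) ((h * aM D') • I : ℍ) (aM D • I), smul_smul, smul_smul, e1, one_smul]
    rw [e2]
    exact hd2
  obtain ⟨hA', hB', -⟩ := TPT_ent _ δ hδ hδ1 hd3
  obtain ⟨a0, a1, a2, a3⟩ := TPT_a (-D)
  obtain ⟨b0, b1, b2, b3⟩ := TPT_a D'
  have g00 : (aM (-D) * (h * aM D')).1 0 0 = h.1 0 0 * Real.exp (-((D - D') / 2)) := by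
    rw [TPT_mul, TPT_mul, TPT_mul, a0, a1, b0, b2]
    have : Real.exp (-((D - D') / 2)) = Real.exp (-D / 2) * Real.exp (D' / 2) := by rw [← Real.exp_add]; ring_nf
    rw [this]
    ring
  have g11 : (aM (-D) * (h * aM D')).1 1 1 = h.1 1 1 * Real.exp ((D - D') / 2) := by
    rw [TPT_mul, TPT_mul, TPT_mul, a2, a3, b1, b3]
    have : Real.exp ((D - D') / 2) = Real.exp (-(-D / 2)) * Real.exp (-(D' / 2)) := by rw [← Real.exp_add]; ring_nf
    rw [this]
    ring
  have g01 : (aM (-D) * (h * aM D')).1 0 1 = h.1 0 1 * Real.exp (-((D + D') / 2)) := by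
    rw [TPT_mul, TPT_mul, TPT_mul, a0, a1, b1, b3]
    have : Real.exp (-((D + D') / 2)) = Real.exp (-D / 2) * Real.exp (-(D' / 2)) := by rw [← Real.exp_add]; ring_nf
    rw [this]
    ring
  have g10 : (aM (-D) * (h * aM D')).1 1 0 = h.1 1 0 * Real.exp ((D + D') / 2) := by
    rw [TPT_mul, TPT_mul, TPT_mul, a2, a3, b0, b2]
    have : Real.exp ((D + D') / 2) = Real.exp (-(-D / 2)) * Real.exp (D' / 2) := by rw [← Real.exp_add]; ring_nf
    rw [this]
    ring
  rw [g00, g11] at hA'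
  rw [g01, g10] at hB'
  have hD'2 := abs_le.1 hD'1
  have hX := TPT_aux (h.1 0 0) (h.1 1 1) ((D - D') / 2) δ (by rw [abs_le]; constructor <;> linarith) hA hA'
  have hY := TPT_aux (h.1 0 1) (-(h.1 1 0)) ((D + D') / 2) δ (by rw [abs_le]; constructor <;> linarith)
    (by rw [sub_neg_eq_add]; exact hB) (by rw [neg_mul, sub_neg_eq_add]; exact hB')
  have hCe : 100 * δ / D = 100 * e := by rw [he, mul_div_assoc]
  rw [hCe]
  rcases le_total D |D + D'| with hc | hc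
  · -- `b` is small
    have hr : |h.1 0 1| ≤ 8 * e := by
      have h1 : 2 * |(D + D') / 2| = |D + D'| := by rw [abs_div, abs_two]; ring
      rw [h1] at hY
      have h2 : |h.1 0 1| * D ≤ 8 * e * D := by
        have := mul_le_mul_of_nonneg_left hc (abs_nonneg (h.1 0 1))
        linarith
      exact le_of_mul_le_mul_right h2 hD
    obtain ⟨h3, h4, h5⟩ := TPT_near _ _ _ _ δ e hdet (hE 0 0) hδ hδe h100 hA hB hr
    rcases h3 with h3 | h3
    · refine ⟨0, by norm_num, ?_⟩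
      obtain ⟨k0, k1, k2, k3⟩ := TPT_k 0
      rw [Real.cos_zero] at k0 k3
      rw [Real.sin_zero] at k1 k2
      have hz : ((0 : ℕ) : ℝ) * (Real.pi / 2) = 0 := by norm_num
      rw [hz, inv_one, one_mul]
      refine TPT_nr _ _ ?_ ?_ ?_ ?_
      · rw [TPT_mul, k0, k2]
        have : h.1 0 0 * 1 + h.1 0 1 * -0 - 1 = h.1 0 0 - 1 := by ring
        rw [this]
        exact h3.1
      · rw [TPT_mul, k1, k3]
        have : h.1 0 0 * 0 + h.1 0 1 * 1 = h.1 0 1 := by ring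
        rw [this]
        exact h4
      · rw [TPT_mul, k0, k2]
        have : h.1 1 0 * 1 + h.1 1 1 * -0 = h.1 1 0 := by ring
        rw [this]
        exact h5
      · rw [TPT_mul, k1, k3]
        have : h.1 1 0 * 0 + h.1 1 1 * 1 - 1 = h.1 1 1 - 1 := by ring
        rw [this]
        exact h3.2
    · refine ⟨2, by norm_num, ?_⟩
      obtain ⟨k0, k1, k2, k3⟩ := TPT_k Real.pi
      rw [Real.cos_pi] at k0 k3
      rw [Real.sin_pi] at k1 k2
      have hz : ((2 : ℕ) : ℝ) * (Real.pi / 2) = Real.pi := by push_cast; ring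
      rw [hz, inv_one, one_mul]
      refine TPT_nr _ _ ?_ ?_ ?_ ?_
      · rw [TPT_mul, k0, k2]
        have : h.1 0 0 * -1 + h.1 0 1 * -0 - 1 = -(h.1 0 0) - 1 := by ring
        rw [this]
        exact h3.1
      · rw [TPT_mul, k1, k3]
        have : h.1 0 0 * 0 + h.1 0 1 * -1 = -(h.1 0 1) := by ring
        rw [this, abs_neg]
        exact h4
      · rw [TPT_mul, k0, k2]
        have : h.1 1 0 * -1 + h.1 1 1 * -0 = -(h.1 1 0) := by ring
        rw [this, abs_neg]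
        exact h5
      · rw [TPT_mul, k1, k3]
        have : h.1 1 0 * 0 + h.1 1 1 * -1 - 1 = -(h.1 1 1) - 1 := by ring
        rw [this]
        exact h3.2
  · -- `a` is small
    have hc' : D ≤ |D - D'| := by
      have h1 := (abs_le.1 hc).2
      exact le_trans (by linarith) (le_abs_self (D - D'))
    have hr : |h.1 0 0| ≤ 8 * e := by
      have h1 : 2 * |(D - D') / 2| = |D - D'| := by rw [abs_div, abs_two]; ring
      rw [h1] at hX
      have h2 : |h.1 0 0| * D ≤ 8 * e * D := by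
        have := mul_le_mul_of_nonneg_left hc' (abs_nonneg (h.1 0 0))
        linarith
      exact le_of_mul_le_mul_right h2 hD
    obtain ⟨h3, h4, h5⟩ := TPT_near (h.1 0 1) (-(h.1 1 0)) (h.1 0 0) (-(h.1 1 1)) δ e (by linarith) (hE 0 1) hδ hδe h100
      (by rw [sub_neg_eq_add]; exact hB) (by rw [← sub_eq_add_neg]; exact hA) hr
    rw [abs_neg] at h5
    rcases h3 with h3 | h3
    · -- `b` near `1`, `c` near `-1`: `i = 3`
      refine ⟨3, by norm_num, ?_⟩
      obtain ⟨k0, k1, k2, k3⟩ := TPT_k (3 * (Real.pi / 2))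
      have hz : ((3 : ℕ) : ℝ) * (Real.pi / 2) = 3 * (Real.pi / 2) := by push_cast; ring
      have hcos : Real.cos (3 * (Real.pi / 2)) = 0 := by
        have : 3 * (Real.pi / 2) = Real.pi / 2 + Real.pi := by ring
        rw [this, Real.cos_add_pi, Real.cos_pi_div_two, neg_zero]
      have hsin : Real.sin (3 * (Real.pi / 2)) = -1 := by
        have : 3 * (Real.pi / 2) = Real.pi / 2 + Real.pi := by ring
        rw [this, Real.sin_add_pi, Real.sin_pi_div_two]
      rw [hcos] at k0 k3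
      rw [hsin] at k1 k2
      rw [hz, inv_one, one_mul]
      refine TPT_nr _ _ ?_ ?_ ?_ ?_
      · rw [TPT_mul, k0, k2]
        have : h.1 0 0 * 0 + h.1 0 1 * - -1 - 1 = h.1 0 1 - 1 := by ring
        rw [this]
        exact h3.1
      · rw [TPT_mul, k1, k3]
        have : h.1 0 0 * -1 + h.1 0 1 * 0 = -(h.1 0 0) := by ring
        rw [this, abs_neg]
        exact h4
      · rw [TPT_mul, k0, k2]
        have : h.1 1 0 * 0 + h.1 1 1 * - -1 = h.1 1 1 := by ring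
        rw [this]
        exact h5
      · rw [TPT_mul, k1, k3]
        have : h.1 1 0 * -1 + h.1 1 1 * 0 - 1 = -(h.1 1 0) - 1 := by ring
        rw [this]
        exact h3.2
    · refine ⟨1, by norm_num, ?_⟩
      obtain ⟨k0, k1, k2, k3⟩ := TPT_k (Real.pi / 2)
      have hz : ((1 : ℕ) : ℝ) * (Real.pi / 2) = Real.pi / 2 := by push_cast; ring
      rw [Real.cos_pi_div_two] at k0 k3
      rw [Real.sin_pi_div_two] at k1 k2
      rw [hz, inv_one, one_mul]
      refine TPT_nr _ _ ?_ ?_ ?_ ?_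
      · rw [TPT_mul, k0, k2]
        have : h.1 0 0 * 0 + h.1 0 1 * -1 - 1 = -(h.1 0 1) - 1 := by ring
        rw [this]
        exact h3.1
      · rw [TPT_mul, k1, k3]
        have : h.1 0 0 * 1 + h.1 0 1 * 0 = h.1 0 0 := by ring
        rw [this]
        exact h4
      · rw [TPT_mul, k0, k2]
        have : h.1 1 0 * 0 + h.1 1 1 * -1 = -(h.1 1 1) := by ring
        rw [this, abs_neg]
        exact h5
      · rw [TPT_mul, k1, k3]
        have : h.1 1 0 * 1 + h.1 1 1 * 0 - 1 = - -(h.1 1 0) - 1 := by ring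
        rw [this]
        exact h3.2

end Pool.Agent.RPQ
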